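import Pool.Agent.Helper49.SH.Fin
import Pool.Agent.Helper24.CR.Fa

/-!
MP_274814_nt, towards Q1: for every `q > 2` exactly `φ(q)/2` of the numbers
`R_a = Γ (a / q) / Γ (1 - a / q)` are algebraically independent, and all algebraic relations between
them are consequences of the reflection and multiplication formulas of the Gamma function.
-/

set_option autoImplicit false

namespace Pool.Agent.Results.MP_274814_nt.AllLevels

open Pool.Agent.Helper24.LRDefs

/-- The real number `R_a = Γ (a / q) / Γ (1 - a / q)`. -/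
noncomputable def R (q a : ℕ) : ℝ := Real.Gamma ((a : ℝ) / q) / Real.Gamma (1 - (a : ℝ) / q)

/-- Odd distributions on `ℚ / ℤ` with real values. -/
def OddDist (f : ℚ → ℝ) : Prop :=
  (∀ x, f (x + 1) = f x) ∧ (∀ x, f (-x) = - f x) ∧
    ∀ N : ℕ, 0 < N → ∀ x, ∑ k ∈ Finset.range N, f ((x + k) / N) = f x

/-- For every prime `p ∣ q`, `-1` is a power of `p` modulo the largest divisor of `q` prime
to `p`. -/
def GoodLevel (q : ℕ) : Prop :=
  ∀ p : ℕ, p.Prime → p ∣ q → ∃ k : ℕ, (p : ZMod (q / p ^ q.factorization p)) ^ k = -1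

/-- The number of odd characters modulo `q` whose primitive character is not `1` at any prime
dividing `q`. -/
noncomputable def g (q : ℕ) : ℕ :=
  Nat.card {χ : DirichletCharacter ℂ q //
    χ.Odd ∧ ∀ p : ℕ, p.Prime → p ∣ q → χ.primitiveCharacter (p : ℕ) ≠ 1}

/-- The field generated by the `R_a`, `1 ≤ a < q`. -/
noncomputable def K (q : ℕ) : IntermediateField ℚ ℂ :=
  IntermediateField.adjoin ℚ {z : ℂ | ∃ a : ℕ, 1 ≤ a ∧ a < q ∧ z = ((R q a : ℝ) : ℂ)}

/-- The field generated by the `R_a`, `1 ≤ a < q`, `a` prime to `q`. -/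
noncomputable def P (q : ℕ) : IntermediateField ℚ ℂ :=
  IntermediateField.adjoin ℚ
    {z : ℂ | ∃ a : ℕ, 1 ≤ a ∧ a < q ∧ a.Coprime q ∧ z = ((R q a : ℝ) : ℂ)}

/-- All levels: `φ(q)/2` independent ratios; independence of a set of ratios is its multiplicative
independence modulo algebraic numbers; the multiplicative relations are those valid for all odd
distributions; the primitive ratios and the field `F q` of the problem. -/
theorem result : ∀ q : ℕ, 2 < q →
    (∃ S : Finset ℕ, S.card = q.totient / 2 ∧ (∀ a ∈ S, 1 ≤ a ∧ a < q) ∧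
      AlgebraicIndependent ℚ (fun a : S => R q a)) ∧
    Algebra.trdeg ℚ (K q) = ((q.totient / 2 : ℕ) : Cardinal) ∧
    (∀ S : Finset ℕ, (∀ a ∈ S, 1 ≤ a ∧ a < q) →
      (AlgebraicIndependent ℚ (fun a : S => R q a) ↔
        ∀ m : ℕ → ℤ, IsAlgebraic ℚ (∏ a ∈ S, R q a ^ m a) → ∀ a ∈ S, m a = 0) ∧
      ∀ m : ℕ → ℤ, IsAlgebraic ℚ (∏ a ∈ S, R q a ^ m a) ↔
        ∀ f : ℚ → ℝ, OddDist f → ∑ a ∈ S, (m a : ℝ) * f ((a : ℚ) / q) = 0) ∧
    (AlgebraicIndependent ℚ
      (fun a : {a : ℕ // 1 ≤ a ∧ 2 * a < q ∧ a.Coprime q} => R q a) ↔ GoodLevel q) ∧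
    Algebra.trdeg ℚ (P q) = ((g q : ℕ) : Cardinal) ∧
    ((g q : ℕ) : Cardinal) ≤ Algebra.trdeg ℚ (F q) ∧
    Algebra.trdeg ℚ (F q) ≤ ((1 + g q : ℕ) : Cardinal) ∧
    (g q = q.totient / 2 ↔ GoodLevel q) := by
  intro q hq
  obtain ⟨h1, h2, h3, h4, h5, h6, h7, h8⟩ :=
    Pool.Agent.Helper24.CR.main Pool.Agent.Helper49.SH.hall q hq
  refine ⟨h1, h2, fun S hS => ⟨(h3 S hS).1, fun m => ?_⟩, h4, h5, h6, h7, h8⟩
  refine ((h3 S hS).2 m).trans ⟨fun h f hf => h f ⟨hf.1, hf.2.1, hf.2.2⟩,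
    fun h f hf => h f ⟨hf.per, hf.odd, hf.mul⟩⟩

end Pool.Agent.Results.MP_274814_nt.AllLevels
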